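import Mathlib
import Pool.Agent.Lib.MP_e22fa6_co.Core
import Pool.Agent.Lib.MP_e22fa6_co.Cuts
import Pool.Agent.Lib.MP_e22fa6_co.Link

namespace Pool.Agent.Results.MP_e22fa6_co.SortedOptimum

open Finset
open Pool.Agent.Lib.MP_e22fa6_co

/-- The average-distance cost of agent `i` in the coalition `C`: the mean of `|v i - v j|` over
the other members `j` of `C` if `C` has at least two members, and the prescribed value `s`
(`0` in the HIS setting, `⊤` in the UIS setting) if `C` is a singleton. -/
noncomputable def cost {n : ℕ} (v : Fin n → ℝ) (s : EReal) (C : Finset (Fin n)) (i : Fin n) :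
    EReal :=
  if C.card ≤ 1 then s
  else (((∑ j ∈ C.erase i, |v i - v j|) / ((C.card : ℝ) - 1) : ℝ) : EReal)

/-- The social cost of a coalition structure (a partition `P` of the set of all agents): the sum
over all agents of their cost in their own coalition. -/
noncomputable def socialCost {n : ℕ} (v : Fin n → ℝ) (s : EReal)
    (P : Finpartition (univ : Finset (Fin n))) : EReal :=
  ∑ i, cost v s (P.part i) i

/-- A coalition structure is sorted: every coalition contains all agents whose value lies
(weakly) between the values of two of its members. -/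
def IsSorted {n : ℕ} (v : Fin n → ℝ) (P : Finpartition (univ : Finset (Fin n))) : Prop :=
  ∀ C ∈ P.parts, ∀ i ∈ C, ∀ j ∈ C, ∀ l : Fin n,
    min (v i) (v j) ≤ v l → v l ≤ max (v i) (v j) → l ∈ C

/-- A coalition structure with at most two coalitions is optimal if it minimises the social cost
among all coalition structures with at most two coalitions. -/
def IsOptimal {n : ℕ} (v : Fin n → ℝ) (s : EReal) (P : Finpartition (univ : Finset (Fin n))) :
    Prop :=
  P.parts.card ≤ 2 ∧
    ∀ Q : Finpartition (univ : Finset (Fin n)), Q.parts.card ≤ 2 → socialCost v s P ≤ socialCost v s Q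

lemma coe_sum' {ι : Type*} (A : Finset ι) (f : ι → ℝ) :
    ((∑ i ∈ A, f i : ℝ) : EReal) = ∑ i ∈ A, (f i : EReal) := by
  classical
  induction A using Finset.induction_on with
  | empty => simp
  | insert a A ha ih => rw [Finset.sum_insert ha, Finset.sum_insert ha, EReal.coe_add, ih]

/-- the total cost of one coalition when it is not a singleton, or when singletons cost 0 -/
lemma sum_cost {n : ℕ} (v : Fin n → ℝ) (s : EReal) (A : Finset (Fin n))
    (h : A.card ≠ 1 ∨ s = 0) :
    ∑ i ∈ A, cost v s A i = ((Dd v A / ((A.card : ℝ) - 1) : ℝ) : EReal) := by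
  rcases Nat.lt_or_ge 1 A.card with h1 | h1
  · unfold Dd
    rw [Finset.sum_div, coe_sum']
    apply Finset.sum_congr rfl
    intro i hi
    unfold cost
    rw [if_neg (by omega)]
    congr 2
    rw [← Finset.add_sum_erase A _ hi]
    simp
  · rcases Nat.eq_zero_or_pos A.card with h0 | h0
    · rw [Finset.card_eq_zero] at h0
      subst h0
      simp [Dd]
    · have h2 : A.card = 1 := by omega
      have hs : s = 0 := by
        rcases h with h | h
        · exact absurd h2 h
        · exact h
      subst hs
      obtain ⟨x, rfl⟩ := Finset.card_eq_one.mp h2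
      simp [cost, Dd]

/-- `P` has coalitions `A` and its complement -/
def Describes {n : ℕ} (P : Finpartition (univ : Finset (Fin n))) (A : Finset (Fin n)) : Prop :=
  ∀ i, P.part i = if i ∈ A then A else Aᶜ

lemma socialCost_split {n : ℕ} (v : Fin n → ℝ) (s : EReal)
    {P : Finpartition (univ : Finset (Fin n))} {A : Finset (Fin n)} (h : Describes P A) :
    socialCost v s P = ∑ i ∈ A, cost v s A i + ∑ i ∈ Aᶜ, cost v s Aᶜ i := by
  unfold socialCost
  rw [← Finset.sum_add_sum_compl A]
  congr 1
  · apply Finset.sum_congr rfl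
    intro i hi
    rw [h i, if_pos hi]
  · apply Finset.sum_congr rfl
    intro i hi
    rw [h i, if_neg (by simpa using hi)]

lemma socialCost_eq {n : ℕ} (v : Fin n → ℝ) (s : EReal)
    {P : Finpartition (univ : Finset (Fin n))} {A : Finset (Fin n)} (h : Describes P A)
    (hs : (A.card ≠ 1 ∧ Aᶜ.card ≠ 1) ∨ s = 0) :
    socialCost v s P = (Sr v A : EReal) := by
  rw [socialCost_split v s h, sum_cost, sum_cost]
  · unfold Sr
    rw [EReal.coe_add]
  · rcases hs with h | h
    · left; exact h.2
    · right; exact h
  · rcases hs with h | h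
    · left; exact h.1
    · right; exact h

lemma sum_cost_top {n : ℕ} (v : Fin n → ℝ) (A : Finset (Fin n)) (h : A.card = 1) :
    ∑ i ∈ A, cost v ⊤ A i = ⊤ := by
  obtain ⟨x, rfl⟩ := Finset.card_eq_one.mp h
  simp [cost]

lemma sum_cost_ne_bot {n : ℕ} (v : Fin n → ℝ) (A : Finset (Fin n)) :
    ∑ i ∈ A, cost v ⊤ A i ≠ ⊥ := by
  by_cases h : A.card = 1
  · rw [sum_cost_top v A h]; exact top_ne_bot
  · rw [sum_cost v ⊤ A (Or.inl h)]; exact EReal.coe_ne_bot _

lemma socialCost_top {n : ℕ} (v : Fin n → ℝ)
    {P : Finpartition (univ : Finset (Fin n))} {A : Finset (Fin n)} (h : Describes P A)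
    (hs : A.card = 1 ∨ Aᶜ.card = 1) :
    socialCost v ⊤ P = ⊤ := by
  rw [socialCost_split v ⊤ h]
  rcases hs with h | h
  · rw [sum_cost_top v A h]
    exact EReal.top_add_of_ne_bot (sum_cost_ne_bot v _)
  · rw [sum_cost_top v Aᶜ h]
    exact EReal.add_top_of_ne_bot (sum_cost_ne_bot v _)

/-- two agents are equivalent when `A` does not separate them -/
def cutSetoid {n : ℕ} (A : Finset (Fin n)) : Setoid (Fin n) where
  r i j := (i ∈ A ↔ j ∈ A)
  iseqv := ⟨fun _ => Iff.rfl, fun h => h.symm, fun h1 h2 => h1.trans h2⟩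

instance {n : ℕ} (A : Finset (Fin n)) : DecidableRel (cutSetoid A).r := fun i j =>
  inferInstanceAs (Decidable (i ∈ A ↔ j ∈ A))

/-- the partition into `A` and its complement -/
def cut {n : ℕ} (A : Finset (Fin n)) : Finpartition (univ : Finset (Fin n)) :=
  Finpartition.ofSetoid (cutSetoid A)

lemma cut_describes {n : ℕ} (A : Finset (Fin n)) : Describes (cut A) A := by
  intro i
  ext j
  unfold cut
  rw [Finpartition.mem_part_ofSetoid_iff_rel]
  change (i ∈ A ↔ j ∈ A) ↔ _
  split_ifs with h
  · simp [h]
  · simp [h]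

lemma cut_card {n : ℕ} (A : Finset (Fin n)) : (cut A).parts.card ≤ 2 := by
  have : (cut A).parts ⊆ {A, Aᶜ} := by
    intro C hC
    obtain ⟨i, hi⟩ := (cut A).nonempty_of_mem_parts hC
    have h1 : (cut A).part i = C := (cut A).part_eq_of_mem hC hi
    rw [cut_describes A i] at h1
    rw [Finset.mem_insert, Finset.mem_singleton]
    split_ifs at h1 with h
    · left; exact h1.symm
    · right; exact h1.symm
  exact (Finset.card_le_card this).trans Finset.card_le_two

/-- every structure with at most two coalitions is described by some set -/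
lemma exists_describes {n : ℕ} (hn : 2 ≤ n) (Q : Finpartition (univ : Finset (Fin n)))
    (hQ : Q.parts.card ≤ 2) : ∃ A, Describes Q A := by
  let i0 : Fin n := ⟨0, by omega⟩
  refine ⟨Q.part i0, ?_⟩
  have h0 : Q.part i0 ∈ Q.parts := Q.part_mem.mpr (Finset.mem_univ _)
  intro i
  have hi : Q.part i ∈ Q.parts := Q.part_mem.mpr (Finset.mem_univ _)
  split_ifs with h
  · exact Q.part_eq_of_mem h0 h
  · have hne : Q.part i0 ≠ Q.part i := by
      intro he
      apply h
      rw [he]
      exact Q.mem_part (Finset.mem_univ _)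
    ext j
    rw [Finset.mem_compl]
    have hj : Q.part j ∈ Q.parts := Q.part_mem.mpr (Finset.mem_univ _)
    have hjj : j ∈ Q.part j := Q.mem_part (Finset.mem_univ _)
    constructor
    · intro h1 h2
      apply hne
      rw [← Q.part_eq_of_mem h0 h2, ← Q.part_eq_of_mem hi h1]
    · intro h1
      by_contra h2
      have hne2 : Q.part j ≠ Q.part i0 := by
        intro he; apply h1; rw [← he]; exact hjj
      have hne3 : Q.part j ≠ Q.part i := by
        intro he; apply h2; rw [← he]; exact hjj
      have hsub : ({Q.part i0, Q.part i, Q.part j} : Finset (Finset (Fin n))) ⊆ Q.parts := by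
        intro C hC
        simp only [Finset.mem_insert, Finset.mem_singleton] at hC
        rcases hC with h | h | h <;> subst h <;> assumption
      have hc : ({Q.part i0, Q.part i, Q.part j} : Finset (Finset (Fin n))).card = 3 := by
        rw [Finset.card_eq_three]
        exact ⟨_, _, _, hne, hne2.symm, hne3.symm, rfl⟩
      have := Finset.card_le_card hsub
      omega

lemma cut_sorted {n k : ℕ} {v : Fin n → ℝ} (hv : Monotone v) (hk : k < n)
    (h : k = 0 ∨ 0 < gap v k) : IsSorted v (cut (seg n k)) := by
  intro C hC i hi j hj l h1 h2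
  have e1 : (cut (seg n k)).part i = C := (cut (seg n k)).part_eq_of_mem hC hi
  have hmem : ∀ x : Fin n, x ∈ C ↔ (i ∈ seg n k ↔ x ∈ seg n k) := by
    intro x
    rw [← e1]
    unfold cut
    rw [Finpartition.mem_part_ofSetoid_iff_rel]
    rfl
  rw [hmem] at hj ⊢
  have hseg : ∀ x : Fin n, x ∈ seg n k ↔ x.val < k := by
    intro x; simp [seg]
  rw [hseg, hseg] at hj ⊢
  rcases h with h | h
  · subst h; simp
  · have hk1 : 1 ≤ k := by
      by_contra hc
      unfold gap at h
      rw [dif_neg (by omega)] at h
      exact lt_irrefl _ h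
    unfold gap at h
    rw [dif_pos ⟨hk1, hk⟩, sub_pos] at h
    constructor
    · intro hik
      by_contra hl
      have hjk := hj.mp hik
      have a1 : v i ≤ v ⟨k-1, by omega⟩ := hv (by rw [Fin.le_def]; simp only; omega)
      have a2 : v j ≤ v ⟨k-1, by omega⟩ := hv (by rw [Fin.le_def]; simp only; omega)
      have a3 : v ⟨k, hk⟩ ≤ v l := hv (by rw [Fin.le_def]; simp only; omega)
      have a4 : max (v i) (v j) ≤ v ⟨k-1, by omega⟩ := max_le a1 a2
      linarith
    · intro hlk
      by_contra hi'
      have hj' : ¬ j.val < k := fun hc => hi' (hj.mpr hc)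
      have a1 : v ⟨k, hk⟩ ≤ v i := hv (by rw [Fin.le_def]; simp only; omega)
      have a2 : v ⟨k, hk⟩ ≤ v j := hv (by rw [Fin.le_def]; simp only; omega)
      have a3 : v l ≤ v ⟨k-1, by omega⟩ := hv (by rw [Fin.le_def]; simp only; omega)
      have a4 : v ⟨k, hk⟩ ≤ min (v i) (v j) := le_min a1 a2
      linarith

/-- Both in the HIS setting (`s = 0`) and in the UIS setting (`s = ⊤`), every instance of at least
two agents with values `v 0 ≤ v 1 ≤ ...` has an optimal coalition structure with at most two
coalitions that is sorted. -/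
theorem result (n : ℕ) (hn : 2 ≤ n) (v : Fin n → ℝ) (hv : Monotone v) (s : EReal)
    (hs : s = 0 ∨ s = ⊤) :
    ∃ P : Finpartition (univ : Finset (Fin n)), IsOptimal v s P ∧ IsSorted v P := by
  rcases hs with hs | hs
  · subst hs
    obtain ⟨k, hk, hk0, hmin⟩ := best_HIS hn (gap_nonneg hv)
    refine ⟨cut (seg n k), ⟨cut_card _, ?_⟩, cut_sorted hv hk hk0⟩
    intro Q hQ
    obtain ⟨A, hA⟩ := exists_describes hn Q hQ
    rw [socialCost_eq v 0 (cut_describes _) (Or.inr rfl), socialCost_eq v 0 hA (Or.inr rfl),
      EReal.coe_le_coe_iff, Sr_seg hv hk.le]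
    by_cases h1 : A.card = 1
    · obtain ⟨j, rfl⟩ := Finset.card_eq_one.mp h1
      obtain ⟨k', hk', hle⟩ := dom_single hn hv j
      have := hmin k' hk'
      linarith
    by_cases h2 : Aᶜ.card = 1
    · obtain ⟨j, hj⟩ := Finset.card_eq_one.mp h2
      obtain ⟨k', hk', hle⟩ := dom_single hn hv j
      rw [← hj, Sr_compl] at hle
      have := hmin k' hk'
      linarith
    · obtain ⟨k', hk', hle⟩ := dom_no_single hv A h1 h2
      have := hmin k' (by omega)
      linarith
  · subst hs
    obtain ⟨k, hk0, hmin⟩ := best_UIS (n := n) (gap_nonneg hv)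
    have hk : k < n := by omega
    refine ⟨cut (seg n k), ⟨cut_card _, ?_⟩, cut_sorted hv hk (by
      rcases hk0 with h | h
      · left; exact h
      · right; exact h.2.2)⟩
    intro Q hQ
    obtain ⟨A, hA⟩ := exists_describes hn Q hQ
    by_cases h1 : A.card = 1 ∨ Aᶜ.card = 1
    · rw [socialCost_top v hA h1]
      exact le_top
    push Not at h1
    have hc1 : (seg n k).card = k := card_seg hk.le
    have hc2 : (seg n k)ᶜ.card = n - k := by
      rw [Finset.card_compl, hc1]; simp
    rw [socialCost_eq v ⊤ (cut_describes _) (Or.inl ⟨by omega, by omega⟩),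
      socialCost_eq v ⊤ hA (Or.inl h1), EReal.coe_le_coe_iff, Sr_seg hv hk.le]
    obtain ⟨k', hk', hle⟩ := dom_no_single hv A h1.1 h1.2
    have := hmin k' hk'
    linarith

end Pool.Agent.Results.MP_e22fa6_co.SortedOptimum
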